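import Pool.Agent.W770.PC.SphStms

set_option autoImplicit false

/-! Project PC: the function `hh`. -/

open MeasureTheory Set Filter Topology

namespace Pool.Agent.W469.PC.HH

open Pool.Agent.W770.PC

theorem chi_pos (r : ℝ) : 0 < chi r := by
  unfold chi
  have h0 := Real.smoothTransition.nonneg (4 * r - 1)
  have h1 := Real.smoothTransition.le_one (4 * r - 1)
  rcases le_or_gt r (1 / 4) with h | h
  · rw [Real.smoothTransition.zero_of_nonpos (by linarith)]
    norm_num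
  · rcases le_or_gt 1 r with h2 | h2
    · nlinarith
    · nlinarith

theorem chi_eq {r : ℝ} (h : 1 / 2 ≤ r) : chi r = r := by
  unfold chi
  rw [Real.smoothTransition.one_of_one_le (by linarith)]
  ring

theorem chi_smooth : ContDiff ℝ (⊤ : ℕ∞) chi := by
  unfold chi
  have h : ContDiff ℝ (⊤ : ℕ∞) (fun r : ℝ => Real.smoothTransition (4 * r - 1)) :=
    Real.smoothTransition.contDiff.comp (by fun_prop)
  fun_prop

theorem hh_smooth : ContDiff ℝ (⊤ : ℕ∞) hh := by
  unfold hh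
  apply ContDiff.sqrt
  · exact chi_smooth.comp (by fun_prop)
  · intro y
    exact (chi_pos _).ne'

theorem hh_eq {y : ℝ × ℝ} (hy : y ∈ U0) : hh y = Real.sqrt (1 - y.1 ^ 2 - y.2 ^ 2) := by
  have h : y.1 ^ 2 + y.2 ^ 2 < 1 / 2 := hy
  unfold hh
  rw [chi_eq (by linarith)]

theorem isOpen_U0 : IsOpen U0 := by
  unfold U0
  exact isOpen_lt (by fun_prop) continuous_const

theorem hh_thm : S_hh := by
  refine ⟨hh_smooth, ?_, isOpen_U0, ?_, ?_⟩
  · intro y hy
    obtain ⟨⟨h1, h2⟩, h3, h4⟩ := hy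
    simp only [Prod.fst_zero, Prod.snd_zero, zero_sub, zero_add] at h1 h2 h3 h4
    change y.1 ^ 2 + y.2 ^ 2 < 1 / 2
    nlinarith
  · intro y hy
    have h : y.1 ^ 2 + y.2 ^ 2 < 1 / 2 := hy
    have hp : 0 < 1 - y.1 ^ 2 - y.2 ^ 2 := by linarith
    have e := hh_eq hy
    have hpos : 0 < hh y := by rw [e]; exact Real.sqrt_pos.2 hp
    refine ⟨hpos, ?_, ?_, ?_⟩
    · rw [e]; exact Real.sq_sqrt hp.le
    · have h1 : HasDerivAt (fun u : ℝ => Real.sqrt (1 - u ^ 2 - y.2 ^ 2))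
          ((-(2 * y.1)) / (2 * Real.sqrt (1 - y.1 ^ 2 - y.2 ^ 2))) y.1 := by
        have h0 : HasDerivAt (fun u : ℝ => 1 - u ^ 2 - y.2 ^ 2) (-(2 * y.1)) y.1 := by
          have := ((hasDerivAt_pow 2 y.1).const_sub 1).sub_const (y.2 ^ 2)
          exact this.congr_deriv (by simp)
        exact h0.sqrt hp.ne'
      have h2 : (fun u : ℝ => hh (u, y.2)) =ᶠ[𝓝 y.1]
          fun u => Real.sqrt (1 - u ^ 2 - y.2 ^ 2) := by
        have h3 : ∀ᶠ u in 𝓝 y.1, ((u, y.2) : ℝ × ℝ) ∈ U0 := by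
          have hc : Continuous (fun u : ℝ => ((u, y.2) : ℝ × ℝ)) := by fun_prop
          exact (isOpen_U0.preimage hc).mem_nhds hy
        filter_upwards [h3] with u hu
        exact hh_eq hu
      have h4 : d1 hh y = (-(2 * y.1)) / (2 * Real.sqrt (1 - y.1 ^ 2 - y.2 ^ 2)) := by
        unfold d1
        rw [h2.deriv_eq, h1.deriv]
      rw [h4, ← e]
      field_simp
    · have h1 : HasDerivAt (fun v : ℝ => Real.sqrt (1 - y.1 ^ 2 - v ^ 2))
          ((-(2 * y.2)) / (2 * Real.sqrt (1 - y.1 ^ 2 - y.2 ^ 2))) y.2 := by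
        have h0 : HasDerivAt (fun v : ℝ => 1 - y.1 ^ 2 - v ^ 2) (-(2 * y.2)) y.2 := by
          have := (hasDerivAt_pow 2 y.2).const_sub (1 - y.1 ^ 2)
          exact this.congr_deriv (by simp)
        exact h0.sqrt hp.ne'
      have h2 : (fun v : ℝ => hh (y.1, v)) =ᶠ[𝓝 y.2]
          fun v => Real.sqrt (1 - y.1 ^ 2 - v ^ 2) := by
        have h3 : ∀ᶠ v in 𝓝 y.2, ((y.1, v) : ℝ × ℝ) ∈ U0 := by
          have hc : Continuous (fun v : ℝ => ((y.1, v) : ℝ × ℝ)) := by fun_prop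
          exact (isOpen_U0.preimage hc).mem_nhds hy
        filter_upwards [h3] with v hv
        exact hh_eq hv
      have h4 : d2 hh y = (-(2 * y.2)) / (2 * Real.sqrt (1 - y.1 ^ 2 - y.2 ^ 2)) := by
        unfold d2
        rw [h2.deriv_eq, h1.deriv]
      rw [h4, ← e]
      field_simp
  · intro y hy
    obtain ⟨⟨h1, h2⟩, h3, h4⟩ := hy
    simp only [Prod.fst_zero, Prod.snd_zero, zero_sub, zero_add] at h1 h2 h3 h4
    have hU : y ∈ U0 := by
      change y.1 ^ 2 + y.2 ^ 2 < 1 / 2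
      nlinarith
    rw [hh_eq hU]
    constructor
    · apply Real.le_sqrt_of_sq_le
      nlinarith
    · apply Real.sqrt_le_one.2
      nlinarith [sq_nonneg y.1, sq_nonneg y.2]

end Pool.Agent.W469.PC.HH
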