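import Pool.Agent.W770.PC.SphStms

set_option autoImplicit false

/-! Project PC: the cell inequalities for the sphere. -/

open MeasureTheory Set Filter Topology

namespace Pool.Agent.W469.PC.Scell

open Pool.Agent.W770.PC

theorem box_sub {w : ℝ × ℝ} {r : ℝ} (h1 : |w.1| + r ≤ 3 / 8) (h2 : |w.2| + r ≤ 3 / 8) :
    box w r ⊆ Dm := by
  intro v hv
  obtain ⟨⟨a1, a2⟩, a3, a4⟩ := hv
  have b1 := abs_le.1 (le_refl |w.1|)
  have b2 := abs_le.1 (le_refl |w.2|)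
  refine ⟨⟨?_, ?_⟩, ?_, ?_⟩ <;> simp only [Prod.fst_zero, Prod.snd_zero, zero_sub, zero_add] <;>
    linarith

theorem box_compact (w : ℝ × ℝ) (r : ℝ) : IsCompact (box w r) :=
  isCompact_Icc.prod isCompact_Icc

/-- comparison of a function and its product with `hh ^ 3` -/
theorem comp (h3 : S_hh) {f g : ℝ × ℝ → ℝ} (hf : Continuous f)
    (hg : Continuous g) (h : ∀ z ∈ U0, hh z ^ 3 * g z = f z) {w : ℝ × ℝ} {r : ℝ}
    (hs : box w r ⊆ Dm) :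
    (∀ y ∈ Dm, |g y| ≤ 2 * |f y|) ∧ ∫ v in box w r, |f v| ≤ ∫ v in box w r, |g v| := by
  obtain ⟨-, hD, -, hU, hb⟩ := h3
  constructor
  · intro y hy
    obtain ⟨b1, b2⟩ := hb y hy
    rw [← h y (hD hy), abs_mul, abs_of_nonneg (by positivity : 0 ≤ hh y ^ 3)]
    have : (1 : ℝ) / 2 ≤ hh y ^ 3 := by
      have := pow_le_pow_left₀ (by norm_num : (0 : ℝ) ≤ 4 / 5) b1 3
      norm_num at this
      linarith
    nlinarith [abs_nonneg (g y)]
  · apply setIntegral_mono_on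
    · exact hf.abs.continuousOn.integrableOn_compact (box_compact w r)
    · exact hg.abs.continuousOn.integrableOn_compact (box_compact w r)
    · exact (box_compact w r).measurableSet
    · intro v hv
      obtain ⟨b1, b2⟩ := hb v (hs hv)
      rw [← h v (hD (hs hv)), abs_mul, abs_of_nonneg (by positivity : 0 ≤ hh v ^ 3)]
      have : hh v ^ 3 ≤ 1 := pow_le_one₀ (by linarith) b2
      nlinarith [abs_nonneg (g v)]

theorem dd1 (h3 : S_hh) (h4 : S_der) {f g : ℝ × ℝ → ℝ} (hg : ContDiff ℝ (⊤ : ℕ∞) g)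
    (h : ∀ z ∈ U0, hh z ^ 3 * g z = f z) {y : ℝ × ℝ} (hy : y ∈ U0) :
    hh y ^ 3 * d1 g y = d1 f y + 3 * hh y * y.1 * g y := by
  obtain ⟨hsm, -, hO, hU, -⟩ := h3
  obtain ⟨-, e2, e3, -⟩ := hU y hy
  have k1 := (h4 hh hsm).2.2.1 y
  have k2 := (h4 g hg).2.2.1 y
  have k3 := (k1.pow 3).mul k2
  have k4 : (fun u : ℝ => f (u, y.2)) =ᶠ[𝓝 y.1]
      ((fun u : ℝ => hh (u, y.2)) ^ 3 * fun u => g (u, y.2)) := by
    have hc : Continuous (fun u : ℝ => ((u, y.2) : ℝ × ℝ)) := by fun_prop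
    have : ∀ᶠ u in 𝓝 y.1, ((u, y.2) : ℝ × ℝ) ∈ U0 := (hO.preimage hc).mem_nhds hy
    filter_upwards [this] with u hu
    exact (h _ hu).symm
  have k5 : d1 f y = _ := (k4.deriv_eq.trans k3.deriv)
  rw [k5]
  simp only [Pi.pow_apply, Prod.mk.eta, Nat.cast_ofNat]
  norm_num
  linear_combination (-(3 * hh y * g y)) * e3

theorem dd2 (h3 : S_hh) (h4 : S_der) {f g : ℝ × ℝ → ℝ} (hg : ContDiff ℝ (⊤ : ℕ∞) g)
    (h : ∀ z ∈ U0, hh z ^ 3 * g z = f z) {y : ℝ × ℝ} (hy : y ∈ U0) :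
    hh y ^ 3 * d2 g y = d2 f y + 3 * hh y * y.2 * g y := by
  obtain ⟨hsm, -, hO, hU, -⟩ := h3
  obtain ⟨-, e2, -, e3⟩ := hU y hy
  have k1 := (h4 hh hsm).2.2.2.1 y
  have k2 := (h4 g hg).2.2.2.1 y
  have k3 := (k1.pow 3).mul k2
  have k4 : (fun u : ℝ => f (y.1, u)) =ᶠ[𝓝 y.2]
      ((fun u : ℝ => hh (y.1, u)) ^ 3 * fun u => g (y.1, u)) := by
    have hc : Continuous (fun u : ℝ => ((y.1, u) : ℝ × ℝ)) := by fun_prop
    have : ∀ᶠ u in 𝓝 y.2, ((y.1, u) : ℝ × ℝ) ∈ U0 := (hO.preimage hc).mem_nhds hy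
    filter_upwards [this] with u hu
    exact (h _ hu).symm
  have k5 : d2 f y = _ := (k4.deriv_eq.trans k3.deriv)
  rw [k5]
  simp only [Pi.pow_apply, Prod.mk.eta, Nat.cast_ofNat]
  norm_num
  linear_combination (-(3 * hh y * g y)) * e3

theorem third {C0 r Ig If fy gy dg df H x : ℝ} (hC0 : 0 ≤ C0) (hr : 0 < r) (hr2 : r ≤ 3 / 8)
    (hH1 : 4 / 5 ≤ H) (hH2 : H ≤ 1) (hx : |x| ≤ 3 / 8) (hI : If ≤ Ig) (hIf : 0 ≤ Ig)
    (e : H ^ 3 * dg = df + 3 * H * x * gy) (h1 : |df| ≤ C0 / r ^ 3 * If)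
    (h2 : |gy| ≤ 2 * |fy|) (h3 : |fy| ≤ C0 / r ^ 2 * If) :
    |dg| ≤ 4 * C0 / r ^ 3 * Ig := by
  have hH3 : (1 : ℝ) / 2 ≤ H ^ 3 := by
    have := pow_le_pow_left₀ (by norm_num : (0 : ℝ) ≤ 4 / 5) hH1 3
    norm_num at this
    linarith
  have a1 : |dg| ≤ 2 * |H ^ 3 * dg| := by
    rw [abs_mul, abs_of_nonneg (by positivity : 0 ≤ H ^ 3)]
    nlinarith [abs_nonneg dg]
  have a2 : |3 * H * x * gy| ≤ 9 / 8 * |gy| := by
    rw [abs_mul, abs_mul, abs_mul, abs_of_pos (by norm_num : (0 : ℝ) < 3),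
      abs_of_nonneg (by linarith : 0 ≤ H)]
    have : H * |x| ≤ 3 / 8 := by nlinarith [abs_nonneg x]
    nlinarith [abs_nonneg gy]
  have a3 : |H ^ 3 * dg| ≤ |df| + 9 / 8 * |gy| := by
    rw [e]
    exact (abs_add_le _ _).trans (by linarith)
  have a4 : C0 / r ^ 2 ≤ 3 / 8 * (C0 / r ^ 3) := by
    have : C0 / r ^ 2 = r * (C0 / r ^ 3) := by field_simp
    rw [this]
    have : 0 ≤ C0 / r ^ 3 := by positivity
    nlinarith
  have a5 : C0 / r ^ 3 * If ≤ C0 / r ^ 3 * Ig := mul_le_mul_of_nonneg_left hI (by positivity)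
  have a6 : C0 / r ^ 2 * If ≤ 3 / 8 * (C0 / r ^ 3 * Ig) := by
    calc C0 / r ^ 2 * If ≤ C0 / r ^ 2 * Ig := mul_le_mul_of_nonneg_left hI (by positivity)
      _ ≤ 3 / 8 * (C0 / r ^ 3) * Ig := mul_le_mul_of_nonneg_right a4 hIf
      _ = _ := by ring
  have a7 : 0 ≤ C0 / r ^ 3 * Ig := by positivity
  have a8 : 4 * C0 / r ^ 3 * Ig = 4 * (C0 / r ^ 3 * Ig) := by ring
  rw [a8]
  linarith

theorem scell_thm (h1 : S_sd) (h2 : S_srem) (h3 : S_hh) (h4 : S_der) : S_scell := by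
  intro D
  obtain ⟨C0, hC0, hC⟩ := h2 (D + 4)
  refine ⟨8 * C0, by positivity, ?_⟩
  intro A B hA hB w r hr hw1 hw2 y hy hyb
  obtain ⟨hsm, -, -, A11, B11, A12, B12, A22, B22, dA11, dB11, dA12, dB12, dA22, dB22, hf⟩ :=
    h1 D A B hA hB
  set g := sf A B with hg
  obtain ⟨s1, s2, -, -, -, -, -, ch, -⟩ := h4 g hsm
  have s11 := (h4 _ s1).1
  have s12 := (h4 _ s2).1
  have s22 := (h4 _ s2).2.1
  have f11 := (h1 (D + 4) A11 B11 dA11 dB11).1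
  have f12 := (h1 (D + 4) A12 B12 dA12 dB12).1
  have f22 := (h1 (D + 4) A22 B22 dA22 dB22).1
  have hs := box_sub hw1 hw2
  have hyU := h3.2.1 hy
  obtain ⟨m1, n1⟩ := comp h3 f11.continuous s11.continuous (fun z hz => (hf z hz).1) hs
  obtain ⟨m2, n2⟩ := comp h3 f12.continuous s12.continuous (fun z hz => (hf z hz).2.1) hs
  obtain ⟨m3, n3⟩ := comp h3 f22.continuous s22.continuous (fun z hz => (hf z hz).2.2) hs
  obtain ⟨p1, p2, -⟩ := hC A11 B11 dA11 dB11 w r hr hw1 hw2 y hy hyb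
  obtain ⟨q1, -, -⟩ := hC A12 B12 dA12 dB12 w r hr hw1 hw2 y hy hyb
  obtain ⟨r1, -, r3⟩ := hC A22 B22 dA22 dB22 w r hr hw1 hw2 y hy hyb
  have i1 : 0 ≤ ∫ v in box w r, |d1 (d1 g) v| := integral_nonneg fun v => abs_nonneg _
  have i2 : 0 ≤ ∫ v in box w r, |d1 (d2 g) v| := integral_nonneg fun v => abs_nonneg _
  have i3 : 0 ≤ ∫ v in box w r, |d2 (d2 g) v| := integral_nonneg fun v => abs_nonneg _
  have t1 : IntegrableOn (fun v => |d1 (d1 g) v|) (box w r) :=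
    s11.continuous.abs.continuousOn.integrableOn_compact (box_compact w r)
  have t2 : IntegrableOn (fun v => |d1 (d2 g) v|) (box w r) :=
    s12.continuous.abs.continuousOn.integrableOn_compact (box_compact w r)
  have t3 : IntegrableOn (fun v => |d2 (d2 g) v|) (box w r) :=
    s22.continuous.abs.continuousOn.integrableOn_compact (box_compact w r)
  have hsum : ∫ v in box w r, hess g v = (∫ v in box w r, |d1 (d1 g) v|) +
      (∫ v in box w r, |d1 (d2 g) v|) + ∫ v in box w r, |d2 (d2 g) v| := by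
    have t12 : IntegrableOn (fun v => |d1 (d1 g) v| + |d1 (d2 g) v|) (box w r) := t1.add t2
    unfold hess
    rw [integral_add t12 t3, integral_add t1 t2]
  set I1 := ∫ v in box w r, |d1 (d1 g) v| with hI1
  set I2 := ∫ v in box w r, |d1 (d2 g) v| with hI2
  set I3 := ∫ v in box w r, |d2 (d2 g) v| with hI3
  rw [hsum]
  have c2 : 0 ≤ C0 / r ^ 2 := by positivity
  have c3 : 0 ≤ C0 / r ^ 3 := by positivity
  obtain ⟨hb1, hb2⟩ := h3.2.2.2.2 y hy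
  obtain ⟨⟨y1, y2⟩, y3, y4⟩ := hy
  have hy' : y ∈ Dm := ⟨⟨y1, y2⟩, y3, y4⟩
  simp only [Prod.fst_zero, Prod.snd_zero, zero_sub, zero_add] at y1 y2 y3 y4
  have hr2 : r ≤ 3 / 8 := by linarith [abs_nonneg w.1]
  constructor
  · have z1 : |d1 (d1 g) y| ≤ 2 * (C0 / r ^ 2 * I1) :=
      (m1 y hy').trans (by linarith [mul_le_mul_of_nonneg_left n1 c2])
    have z2 : |d1 (d2 g) y| ≤ 2 * (C0 / r ^ 2 * I2) :=
      (m2 y hy').trans (by linarith [mul_le_mul_of_nonneg_left n2 c2])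
    have z3 : |d2 (d2 g) y| ≤ 2 * (C0 / r ^ 2 * I3) :=
      (m3 y hy').trans (by linarith [mul_le_mul_of_nonneg_left n3 c2])
    have e : 8 * C0 / r ^ 2 * (I1 + I2 + I3) = 8 * (C0 / r ^ 2 * I1) + 8 * (C0 / r ^ 2 * I2) +
        8 * (C0 / r ^ 2 * I3) := by ring
    rw [e]
    have o1 := mul_nonneg c2 i1
    have o2 := mul_nonneg c2 i2
    have o3 := mul_nonneg c2 i3
    unfold hess
    linarith
  · have e1 := dd1 h3 h4 s11 (fun z hz => (hf z hz).1) hyU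
    have e2 := dd2 h3 h4 s22 (fun z hz => (hf z hz).2.2) hyU
    have z1 : |d1 (d1 (d1 g)) y| ≤ 4 * C0 / r ^ 3 * I1 :=
      third hC0 hr hr2 hb1 hb2 (abs_le.2 ⟨by linarith, y2⟩) n1 i1 e1 p2 (m1 y hy') p1
    have z2 : |d2 (d2 (d2 g)) y| ≤ 4 * C0 / r ^ 3 * I3 :=
      third hC0 hr hr2 hb1 hb2 (abs_le.2 ⟨by linarith, y4⟩) n3 i3 e2 r3 (m3 y hy') r1
    have e : 8 * C0 / r ^ 3 * (I1 + I2 + I3) = 8 * (C0 / r ^ 3 * I1) + 8 * (C0 / r ^ 3 * I2) +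
        8 * (C0 / r ^ 3 * I3) := by ring
    rw [e]
    have o1 := mul_nonneg c3 i1
    have o2 := mul_nonneg c3 i2
    have o3 := mul_nonneg c3 i3
    have z3 : 4 * C0 / r ^ 3 * I1 = 4 * (C0 / r ^ 3 * I1) := by ring
    have z4 : 4 * C0 / r ^ 3 * I3 = 4 * (C0 / r ^ 3 * I3) := by ring
    linarith

end Pool.Agent.W469.PC.Scell
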